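import Pool.Agent.R393.CubMain

/-!
# A totally real cubic field with property (T) outside the two families

The field is `K = ℚ(π)`, `π³ + 16 π² - 64 π + 22 = 0`, of discriminant `1318132 = 2² · 329533`.

* `𝓞 K = ℤ[π]` (discriminant and Eisenstein at `2`).
* The vertices of the convex hull of the totally positive integers are totally positive units: with
  the units `B = π² - 3π + 1`, `C = π² + 19π - 7`, `A = BC` the six triangles
  `1AC`, `1CB⁻¹`, `1B⁻¹A⁻¹`, `1A⁻¹C⁻¹`, `1C⁻¹B`, `1BA` are the faces at the vertex `1`
  (three of index 1 and three of index 21). For `x` in the trace dual choose a totally positive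
  unit `ε` with `tr(ε x)` minimal; then `ε x` lies in the normal cone of the vertex `1`, which is
  spanned by the six face functionals, and each of them is at least one on the totally positive
  integers. So `tr(ε x) ≤ tr(x m)` for all totally positive integers `m`.
* `2` is totally ramified in `K`, with residue map `𝓞 K → 𝔽₂`, `a₀ + a₁π + a₂π² ↦ a₀`, and
  the trace is congruent to this residue mod `2`. A root `α` of `x(x - r)(x - s) - 1` is a unit, so
  `α`, `α - r`, `α - s` have residue one, `r` and `s` are even, but the trace `r + s` is odd. The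
  polynomials `x³ + (n+1)x² + (n-2)x - 1` have no root mod `2`.
-/

namespace Pool.Agent.Results.MP_6f6b5b_nt.PropertyTNotOnlyFamilies

open Pool.Agent.R393.TraceRed

/-- There is a totally real cubic field `K` with property (T) which contains no element `α` with
`α (α - r) (α - s) = 1` for integers `1 ≤ r ≤ s - 2`, and no element `α` with
`α³ + (n + 1) α² + (n - 2) α - 1 = 0` for an integer `n > 0`. In particular `K` is isomorphic to
none of the fields `K_{r,s}` and to none of the fields `K_n`. -/
theorem result : ∃ (K : Type) (_ : Field K) (_ : NumberField K),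
    NumberField.IsTotallyReal K ∧ Module.finrank ℚ K = 3 ∧ PropertyT K ∧
    (∀ r s : ℤ, 1 ≤ r → r ≤ s - 2 → ∀ α : K, α * (α - r) * (α - s) ≠ 1) ∧
    (∀ n : ℤ, 0 < n → ∀ α : K, α ^ 3 + (n + 1) * α ^ 2 + (n - 2) * α - 1 ≠ 0) :=
  ⟨Pool.Agent.R393.Cub.K, inferInstance, inferInstance, inferInstance,
    Pool.Agent.R393.Cub.finrank_K, Pool.Agent.R393.Cub.propertyT,
    fun r s hr hs α => Pool.Agent.R393.Cub.not_sfam r s hr hs α,
    fun n _ α => Pool.Agent.R393.Cub.not_nfam n α⟩

end Pool.Agent.Results.MP_6f6b5b_nt.PropertyTNotOnlyFamilies
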